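import Mathlib

/-! # KN8: pairs of points from local 2-pierceability (task 73 of MP_d085fd_co) -/

set_option autoImplicit false

namespace Pool.KN

open Finset

namespace Pairs

/-! ### lexicographic order -/

/-- strict lexicographic order of the plane -/
def lexLt (z w : ℝ × ℝ) : Prop := z.1 < w.1 ∨ (z.1 = w.1 ∧ z.2 < w.2)

lemma lexLt_antisymm {z w : ℝ × ℝ} (h1 : ¬ lexLt z w) (h2 : ¬ lexLt w z) : z = w := by
  simp only [lexLt, not_or, not_and, not_lt] at h1 h2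
  have e1 : z.1 = w.1 := le_antisymm h2.1 h1.1
  exact Prod.ext e1 (le_antisymm (h2.2 e1.symm) (h1.2 e1))

lemma convex_lexLt (v : ℝ × ℝ) : Convex ℝ {z | lexLt z v} := by
  rintro z hz w hw a b ha hb hab
  simp only [Set.mem_ofPred_eq, lexLt, Prod.fst_add, Prod.smul_fst, smul_eq_mul, Prod.snd_add,
    Prod.smul_snd] at hz hw ⊢
  rcases ha.eq_or_lt with ha0 | ha0
  · have hb1 : b = 1 := by linarith
    subst hb1
    rw [← ha0]
    simpa using hw
  rcases hb.eq_or_lt with hb0 | hb0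
  · have ha1 : a = 1 := by linarith
    subst ha1
    rw [← hb0]
    simpa using hz
  have hv1 : a * v.1 + b * v.1 = v.1 := by rw [← add_mul, hab, one_mul]
  have hv2 : a * v.2 + b * v.2 = v.2 := by rw [← add_mul, hab, one_mul]
  rcases hz with hz | ⟨hz1, hz2⟩ <;> rcases hw with hw | ⟨hw1, hw2⟩
  · left
    have h1 := mul_lt_mul_of_pos_left hz ha0
    have h2 := mul_lt_mul_of_pos_left hw hb0
    linarith
  · left
    have h1 := mul_lt_mul_of_pos_left hz ha0
    rw [hw1]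
    linarith
  · left
    have h2 := mul_lt_mul_of_pos_left hw hb0
    rw [hz1]
    linarith
  · right
    have h1 := mul_lt_mul_of_pos_left hz2 ha0
    have h2 := mul_lt_mul_of_pos_left hw2 hb0
    exact ⟨by rw [hz1, hw1]; linarith, by linarith⟩

lemma exists_lexmin {K : Set (ℝ × ℝ)} (hK : IsCompact K) (hne : K.Nonempty) :
    ∃ v ∈ K, ∀ z ∈ K, ¬ lexLt z v := by
  obtain ⟨u, hu, hmin⟩ := hK.exists_isMinOn hne continuous_fst.continuousOn
  have hK' : IsCompact (K ∩ {z : ℝ × ℝ | z.1 = u.1}) :=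
    hK.inter_right (isClosed_eq continuous_fst continuous_const)
  obtain ⟨v, hv, hmin'⟩ := hK'.exists_isMinOn ⟨u, hu, rfl⟩ continuous_snd.continuousOn
  refine ⟨v, hv.1, fun z hz => ?_⟩
  have h1 : u.1 ≤ z.1 := hmin hz
  have h2 : v.1 = u.1 := hv.2
  rintro (h | ⟨h3, h4⟩)
  · rw [h2] at h; exact absurd h (not_lt.2 h1)
  · have h5 : v.2 ≤ z.2 := hmin' ⟨hz, by show z.1 = u.1; rw [h3, h2]⟩
    exact absurd h4 (not_lt.2 h5)

section

variable {ι : Type} (A : ι → Set (ℝ × ℝ))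

open Classical in
/-- the lexicographically smallest point of an intersection of three sets -/
noncomputable def pt (i j k : ι) : ℝ × ℝ :=
  if h : ∃ v ∈ A i ∩ A j ∩ A k, ∀ z ∈ A i ∩ A j ∩ A k, ¬ lexLt z v then h.choose else 0

variable {A}

lemma pt_eq {i j k : ι} {v : ℝ × ℝ} (hv : v ∈ A i ∩ A j ∩ A k)
    (hmin : ∀ z ∈ A i ∩ A j ∩ A k, ¬ lexLt z v) : pt A i j k = v := by
  have h : ∃ v ∈ A i ∩ A j ∩ A k, ∀ z ∈ A i ∩ A j ∩ A k, ¬ lexLt z v := ⟨v, hv, hmin⟩
  rw [pt, dif_pos h]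
  obtain ⟨h1, h2⟩ := h.choose_spec
  exact lexLt_antisymm (hmin _ h1) (h2 _ hv)

/-- a nonempty set of at most three elements is the set of terms of a triple -/
lemma exists_triple {I : Finset ι} (hne : I.Nonempty) (hc : I.card ≤ 3) :
    ∃ i ∈ I, ∃ j ∈ I, ∃ k ∈ I, ∀ l ∈ I, l = i ∨ l = j ∨ l = k := by
  classical
  have hpos := hne.card_pos
  have h0 : I.card = 1 ∨ I.card = 2 ∨ I.card = 3 := by omega
  rcases h0 with h0 | h0 | h0
  · obtain ⟨a, rfl⟩ := Finset.card_eq_one.1 h0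
    exact ⟨a, by simp, a, by simp, a, by simp, by simp⟩
  · obtain ⟨a, b, -, rfl⟩ := Finset.card_eq_two.1 h0
    exact ⟨a, by simp, b, by simp, b, by simp, by simp⟩
  · obtain ⟨a, b, c, -, -, -, rfl⟩ := Finset.card_eq_three.1 h0
    exact ⟨a, by simp, b, by simp, c, by simp, by simp⟩

/-- the compression lemma -/
lemma exists_pt (hconv : ∀ i, Convex ℝ (A i)) (hcomp : ∀ i, IsCompact (A i)) {G : Finset ι}
    (hG : G.Nonempty) {x : ℝ × ℝ} (hx : ∀ i ∈ G, x ∈ A i) :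
    ∃ i ∈ G, ∃ j ∈ G, ∃ k ∈ G, ∀ l ∈ G, pt A i j k ∈ A l := by
  classical
  obtain ⟨i₀, hi₀⟩ := hG
  have hK : IsCompact (⋂ i ∈ G, A i) := by
    refine (hcomp i₀).of_isClosed_subset (isClosed_biInter fun i _ => (hcomp i).isClosed) ?_
    exact Set.biInter_subset_of_mem hi₀
  obtain ⟨v, hv, hmin⟩ := exists_lexmin hK ⟨x, Set.mem_iInter₂.2 hx⟩
  have hv' : ∀ i ∈ G, v ∈ A i := Set.mem_iInter₂.1 hv
  -- Helly
  have hfr : Module.finrank ℝ (ℝ × ℝ) = 2 := by simp
  have hex : ∃ I ⊆ G, I.card ≤ 3 ∧ ¬ (⋂ i ∈ I, (A i ∩ {z | lexLt z v})).Nonempty := by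
    by_contra hcon
    push Not at hcon
    have := Convex.helly_theorem' (𝕜 := ℝ) (F := fun i => A i ∩ {z | lexLt z v}) (s := G)
      (fun i _ => (hconv i).inter (convex_lexLt v)) (fun I hI hc => by
        rw [hfr] at hc
        exact hcon I hI hc)
    obtain ⟨z, hz⟩ := this
    rw [Set.mem_iInter₂] at hz
    exact hmin z (Set.mem_iInter₂.2 fun i hi => (hz i hi).1) (hz i₀ hi₀).2
  obtain ⟨I, hI, hc, hempty⟩ := hex
  have hIne : I.Nonempty := by
    rw [Finset.nonempty_iff_ne_empty]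
    rintro rfl
    apply hempty
    simp
  obtain ⟨i, hi, j, hj, k, hk, hall⟩ := exists_triple hIne hc
  refine ⟨i, hI hi, j, hI hj, k, hI hk, ?_⟩
  have : pt A i j k = v := by
    refine pt_eq ⟨⟨hv' i (hI hi), hv' j (hI hj)⟩, hv' k (hI hk)⟩ ?_
    intro z hz hlt
    apply hempty
    refine ⟨z, Set.mem_iInter₂.2 fun l hl => ⟨?_, hlt⟩⟩
    rcases hall l hl with rfl | rfl | rfl
    · exact hz.1.1
    · exact hz.1.2
    · exact hz.2
  rw [this]
  exact hv'

/-- the pair of points determined by a 6-tuple of indices -/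
noncomputable def pr (A : ι → Set (ℝ × ℝ)) (s : Fin 6 → ι) : (ℝ × ℝ) × (ℝ × ℝ) :=
  (pt A (s 0) (s 1) (s 2), pt A (s 3) (s 4) (s 5))

/-- the set `A i` contains one of the points of the pair -/
def Hit (A : ι → Set (ℝ × ℝ)) (p : (ℝ × ℝ) × (ℝ × ℝ)) (i : ι) : Prop := p.1 ∈ A i ∨ p.2 ∈ A i

lemma exists_pt' (hconv : ∀ i, Convex ℝ (A i)) (hcomp : ∀ i, IsCompact (A i)) {G : Finset ι}
    (hG : G.Nonempty) (x : ℝ × ℝ) :
    ∃ i ∈ G, ∃ j ∈ G, ∃ k ∈ G, ∀ l ∈ G, x ∈ A l → pt A i j k ∈ A l := by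
  classical
  by_cases hne : (G.filter (fun i => x ∈ A i)).Nonempty
  · obtain ⟨i, hi, j, hj, k, hk, h⟩ := exists_pt hconv hcomp hne
      (x := x) (fun i hi => (Finset.mem_filter.1 hi).2)
    refine ⟨i, (Finset.mem_filter.1 hi).1, j, (Finset.mem_filter.1 hj).1, k,
      (Finset.mem_filter.1 hk).1, fun l hl hx => h l (Finset.mem_filter.2 ⟨hl, hx⟩)⟩
  · obtain ⟨i, hi⟩ := hG
    refine ⟨i, hi, i, hi, i, hi, fun l hl hx => ?_⟩
    exact absurd ⟨l, Finset.mem_filter.2 ⟨hl, hx⟩⟩ hne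

lemma exists_pr (hconv : ∀ i, Convex ℝ (A i)) (hcomp : ∀ i, IsCompact (A i)) {m : ℕ} (hm : 0 < m)
    (hloc : ∀ G : Finset ι, G.card ≤ m → ∃ x y : ℝ × ℝ, ∀ i ∈ G, x ∈ A i ∨ y ∈ A i)
    (t : Fin m → ι) : ∃ σ : Fin 6 → Fin m, ∀ j, Hit A (pr A (t ∘ σ)) (t j) := by
  classical
  set G := Finset.univ.image t with hGdef
  have hGc : G.card ≤ m := by
    have := Finset.card_image_le (s := (Finset.univ : Finset (Fin m))) (f := t)
    rwa [Finset.card_univ, Fintype.card_fin] at this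
  obtain ⟨x, y, hxy⟩ := hloc G hGc
  have hGne : G.Nonempty := ⟨t ⟨0, hm⟩, Finset.mem_image_of_mem _ (Finset.mem_univ _)⟩
  obtain ⟨i, hi, j, hj, k, hk, h1⟩ := exists_pt' hconv hcomp hGne x
  obtain ⟨i', hi', j', hj', k', hk', h2⟩ := exists_pt' hconv hcomp hGne y
  simp only [hGdef, Finset.mem_image, Finset.mem_univ, true_and] at hi hj hk hi' hj' hk'
  obtain ⟨a0, rfl⟩ := hi
  obtain ⟨a1, rfl⟩ := hj
  obtain ⟨a2, rfl⟩ := hk
  obtain ⟨a3, rfl⟩ := hi'
  obtain ⟨a4, rfl⟩ := hj'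
  obtain ⟨a5, rfl⟩ := hk'
  refine ⟨![a0, a1, a2, a3, a4, a5], fun l => ?_⟩
  have hl : t l ∈ G := Finset.mem_image_of_mem _ (Finset.mem_univ _)
  rcases hxy _ hl with h | h
  · exact Or.inl (h1 _ hl h)
  · exact Or.inr (h2 _ hl h)

end

/-! ### the sampling argument -/

section sampling

variable {ι : Type} [Fintype ι]

/-- for a fixed pattern -/
lemma pattern_sum' (A : ι → Set (ℝ × ℝ)) (w : ι → ℝ) (hw : ∀ i, 0 ≤ w i) {m : ℕ} (W q : ℝ)
    (hW : W = ∑ i, w i) (hq0 : 0 ≤ q) (hq1 : q ≤ 1)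
    [∀ (p : (ℝ × ℝ) × (ℝ × ℝ)) (i : ι), Decidable (Hit A p i)]
    (hq : ∀ p, ∑ i, (if Hit A p i then w i else 0) ≤ q * W) (σ : Fin 6 → Fin m)
    (p : Fin m → Prop) [DecidablePred p] (hσ : ∀ a, p (σ a))
    (hcard6 : Fintype.card {j // p j} ≤ 6) :
    ∑ t : Fin m → ι, (if ∀ j, Hit A (pr A (t ∘ σ)) (t j) then ∏ j, w (t j) else 0) ≤
      q ^ (m - 6) * W ^ m := by
  have hW0 : 0 ≤ W := hW ▸ Finset.sum_nonneg fun i _ => hw i
  have hcard : Fintype.card {j // p j} + Fintype.card {j // ¬ p j} = m := by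
    rw [← Fintype.card_sum, Fintype.card_congr (Equiv.sumCompl p), Fintype.card_fin]
  have hg : ∀ (p' : (ℝ × ℝ) × (ℝ × ℝ)) (i : ι), 0 ≤ (if Hit A p' i then w i else 0) := by
    intro p' i
    split_ifs
    · exact hw _
    · exact le_rfl
  have h1 : ∀ z : ({j // p j} → ι) × ({j // ¬ p j} → ι),
      (if ∀ j, Hit A (pr A (((Equiv.piEquivPiSubtypeProd p (fun _ => ι)).symm z) ∘ σ))
          (((Equiv.piEquivPiSubtypeProd p (fun _ => ι)).symm z) j) then
        ∏ j, w (((Equiv.piEquivPiSubtypeProd p (fun _ => ι)).symm z) j) else 0) ≤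
      (∏ j : {j // p j}, w (z.1 j)) *
        ∏ j : {j // ¬ p j}, (if Hit A (pr A (fun a => z.1 ⟨σ a, hσ a⟩)) (z.2 j)
          then w (z.2 j) else 0) := by
    intro z
    set t := (Equiv.piEquivPiSubtypeProd p (fun _ => ι)).symm z with ht
    have e1 : ∀ j : {j // p j}, t j = z.1 j := by
      intro j
      have : (Equiv.piEquivPiSubtypeProd p (fun _ => ι)) t = z := by rw [ht]; simp
      rw [← this]; rfl
    have e2 : ∀ j : {j // ¬ p j}, t j = z.2 j := by
      intro j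
      have : (Equiv.piEquivPiSubtypeProd p (fun _ => ι)) t = z := by rw [ht]; simp
      rw [← this]; rfl
    have e3 : t ∘ σ = fun a => z.1 ⟨σ a, hσ a⟩ := by
      funext a
      exact e1 ⟨σ a, hσ a⟩
    rw [e3]
    split_ifs with hall
    · have h2 : ∏ j : {j // ¬ p j},
          (if Hit A (pr A (fun a => z.1 ⟨σ a, hσ a⟩)) (z.2 j) then w (z.2 j) else 0) =
            ∏ j : {j // ¬ p j}, w (t j) := by
        refine Finset.prod_congr rfl fun j _ => ?_
        rw [← e2, if_pos (hall j)]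
      have h3 : ∏ j : {j // p j}, w (z.1 j) = ∏ j : {j // p j}, w (t j) := by
        refine Finset.prod_congr rfl fun j _ => ?_
        rw [← e1]
      rw [h2, h3, Fintype.prod_subtype_mul_prod_subtype p (fun j => w (t j))]
    · exact mul_nonneg (Finset.prod_nonneg fun j _ => hw _) (Finset.prod_nonneg fun j _ => hg _ _)
  calc ∑ t : Fin m → ι, (if ∀ j, Hit A (pr A (t ∘ σ)) (t j) then ∏ j, w (t j) else 0)
      = ∑ z : ({j // p j} → ι) × ({j // ¬ p j} → ι),
        (if ∀ j, Hit A (pr A (((Equiv.piEquivPiSubtypeProd p (fun _ => ι)).symm z) ∘ σ))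
          (((Equiv.piEquivPiSubtypeProd p (fun _ => ι)).symm z) j) then
        ∏ j, w (((Equiv.piEquivPiSubtypeProd p (fun _ => ι)).symm z) j) else 0) :=
        (Fintype.sum_equiv (Equiv.piEquivPiSubtypeProd p (fun _ => ι)).symm _ _
          fun t => rfl).symm
    _ ≤ ∑ z : ({j // p j} → ι) × ({j // ¬ p j} → ι), (∏ j : {j // p j}, w (z.1 j)) *
        ∏ j : {j // ¬ p j}, (if Hit A (pr A (fun a => z.1 ⟨σ a, hσ a⟩)) (z.2 j)
          then w (z.2 j) else 0) :=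
        Finset.sum_le_sum fun z _ => h1 z
    _ = ∑ t1 : {j // p j} → ι, (∏ j : {j // p j}, w (t1 j)) *
        ∑ t2 : {j // ¬ p j} → ι, ∏ j : {j // ¬ p j},
          (if Hit A (pr A (fun a => t1 ⟨σ a, hσ a⟩)) (t2 j) then w (t2 j) else 0) := by
        rw [Fintype.sum_prod_type]
        refine Finset.sum_congr rfl fun t1 _ => ?_
        rw [Finset.mul_sum]
    _ ≤ ∑ t1 : {j // p j} → ι, (∏ j : {j // p j}, w (t1 j)) *
        (q * W) ^ Fintype.card {j // ¬ p j} := by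
        refine Finset.sum_le_sum fun t1 _ => ?_
        refine mul_le_mul_of_nonneg_left ?_ (Finset.prod_nonneg fun j _ => hw _)
        have h5 := Finset.prod_univ_sum (fun _ : {j // ¬ p j} => (Finset.univ : Finset ι))
          (fun _ i => if Hit A (pr A (fun a => t1 ⟨σ a, hσ a⟩)) i then w i else 0)
        rw [Fintype.piFinset_univ] at h5
        rw [← h5, Finset.prod_const, Finset.card_univ]
        exact pow_le_pow_left₀ (Finset.sum_nonneg fun i _ => hg _ _) (hq _) _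
    _ = W ^ Fintype.card {j // p j} * (q * W) ^ Fintype.card {j // ¬ p j} := by
        rw [← Finset.sum_mul]
        congr 1
        have h5 := Finset.prod_univ_sum (fun _ : {j // p j} => (Finset.univ : Finset ι))
          (fun _ i => w i)
        rw [Fintype.piFinset_univ] at h5
        rw [← h5, Finset.prod_const, Finset.card_univ, hW]
    _ = q ^ Fintype.card {j // ¬ p j} * W ^ m := by
        have hWm : W ^ m = W ^ Fintype.card {j // p j} * W ^ Fintype.card {j // ¬ p j} := by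
          rw [← pow_add, hcard]
        rw [mul_pow, hWm]; ring
    _ ≤ q ^ (m - 6) * W ^ m := by
        refine mul_le_mul_of_nonneg_right ?_ (pow_nonneg hW0 _)
        exact pow_le_pow_of_le_one hq0 hq1 (by omega)

lemma pattern_sum (A : ι → Set (ℝ × ℝ)) (w : ι → ℝ) (hw : ∀ i, 0 ≤ w i) {m : ℕ} (W q : ℝ)
    (hW : W = ∑ i, w i) (hq0 : 0 ≤ q) (hq1 : q ≤ 1)
    [∀ (p : (ℝ × ℝ) × (ℝ × ℝ)) (i : ι), Decidable (Hit A p i)]
    (hq : ∀ p, ∑ i, (if Hit A p i then w i else 0) ≤ q * W) (σ : Fin 6 → Fin m) :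
    ∑ t : Fin m → ι, (if ∀ j, Hit A (pr A (t ∘ σ)) (t j) then ∏ j, w (t j) else 0) ≤
      q ^ (m - 6) * W ^ m := by
  classical
  refine pattern_sum' A w hw W q hW hq0 hq1 hq σ (fun j => ∃ a, σ a = j) (fun a => ⟨a, rfl⟩) ?_
  have h4 := Fintype.card_le_of_surjective
    (fun a : Fin 6 => (⟨σ a, ⟨a, rfl⟩⟩ : {j // ∃ a, σ a = j}))
    (fun ⟨j, a, ha⟩ => ⟨a, Subtype.ext ha⟩)
  rwa [Fintype.card_fin] at h4

/-- for every weight, some pair of points misses a small part of the weight -/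
lemma exists_pair (A : ι → Set (ℝ × ℝ)) (hconv : ∀ i, Convex ℝ (A i))
    (hcomp : ∀ i, IsCompact (A i)) {m : ℕ} (hm : 6 ≤ m) (ε : ℝ) (hε0 : 0 ≤ ε) (hε1 : ε ≤ 1)
    (hmε : (m : ℝ) ^ 6 * (1 - ε) ^ (m - 6) < 1)
    (hloc : ∀ G : Finset ι, G.card ≤ m → ∃ x y : ℝ × ℝ, ∀ i ∈ G, x ∈ A i ∨ y ∈ A i)
    [∀ (p : (ℝ × ℝ) × (ℝ × ℝ)) (i : ι), Decidable (Hit A p i)]
    (w : ι → ℝ) (hw : ∀ i, 0 ≤ w i) :
    ∃ p : (ℝ × ℝ) × (ℝ × ℝ), ∑ i, (if Hit A p i then 0 else w i) ≤ ε * ∑ i, w i := by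
  classical
  by_contra hcon
  push Not at hcon
  set W := ∑ i, w i with hW
  have hW0 : 0 ≤ W := Finset.sum_nonneg fun i _ => hw i
  have hsplit : ∀ p : (ℝ × ℝ) × (ℝ × ℝ), ∑ i, (if Hit A p i then w i else 0) +
      ∑ i, (if Hit A p i then 0 else w i) = W := by
    intro p
    rw [← Finset.sum_add_distrib]
    refine Finset.sum_congr rfl fun i _ => ?_
    split_ifs <;> simp
  have hq : ∀ p : (ℝ × ℝ) × (ℝ × ℝ), ∑ i, (if Hit A p i then w i else 0) ≤ (1 - ε) * W := by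
    intro p
    have h1 := hsplit p
    have h2 := hcon p
    linarith
  have hWpos : 0 < W := by
    rcases hW0.eq_or_lt with h0 | h0
    · exfalso
      have h1 := hcon 0
      have h2 : ∑ i, (if Hit A 0 i then 0 else w i) ≤ W := by
        refine Finset.sum_le_sum fun i _ => ?_
        split_ifs
        · exact hw i
        · exact le_rfl
      rw [← h0] at h1 h2
      linarith
    · exact h0
  have h1 : W ^ m = ∑ t : Fin m → ι, ∏ j, w (t j) := by
    have h5 := Finset.prod_univ_sum (fun _ : Fin m => (Finset.univ : Finset ι)) (fun _ i => w i)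
    rw [Fintype.piFinset_univ] at h5
    rw [← h5, Finset.prod_const, Finset.card_univ, Fintype.card_fin]
  have h2 : ∑ t : Fin m → ι, ∏ j, w (t j) ≤ ∑ t : Fin m → ι, ∑ σ : Fin 6 → Fin m,
      (if ∀ j, Hit A (pr A (t ∘ σ)) (t j) then ∏ j, w (t j) else 0) := by
    refine Finset.sum_le_sum fun t _ => ?_
    obtain ⟨σ, hσ⟩ := exists_pr hconv hcomp (by omega) hloc t
    have h3 : ∏ j, w (t j) = (if ∀ j, Hit A (pr A (t ∘ σ)) (t j) then ∏ j, w (t j) else 0) := by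
      rw [if_pos hσ]
    refine h3.le.trans (Finset.single_le_sum (f := fun σ : Fin 6 → Fin m =>
      (if ∀ j, Hit A (pr A (t ∘ σ)) (t j) then ∏ j, w (t j) else 0)) (fun σ _ => ?_)
      (Finset.mem_univ σ))
    split_ifs
    · exact Finset.prod_nonneg fun j _ => hw _
    · exact le_rfl
  rw [← h1, Finset.sum_comm] at h2
  have h3 : ∑ σ : Fin 6 → Fin m, ∑ t : Fin m → ι,
      (if ∀ j, Hit A (pr A (t ∘ σ)) (t j) then ∏ j, w (t j) else 0) ≤
      ∑ σ : Fin 6 → Fin m, (1 - ε) ^ (m - 6) * W ^ m :=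
    Finset.sum_le_sum fun σ _ => pattern_sum A w hw W (1 - ε) hW (by linarith) (by linarith) hq σ
  rw [Finset.sum_const, Finset.card_univ, Fintype.card_fun, Fintype.card_fin, Fintype.card_fin,
    nsmul_eq_mul] at h3
  push_cast at h3
  have h4 : W ^ m ≤ (m : ℝ) ^ 6 * (1 - ε) ^ (m - 6) * W ^ m := by
    rw [mul_assoc]; exact h2.trans h3
  have h5 : (0 : ℝ) < W ^ m := pow_pos hWpos m
  nlinarith

/-- multiplicative weights -/
lemma exists_seq (A : ι → Set (ℝ × ℝ)) (ε : ℝ) (hε0 : 0 ≤ ε)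
    [∀ (p : (ℝ × ℝ) × (ℝ × ℝ)) (i : ι), Decidable (Hit A p i)]
    (hex : ∀ w : ι → ℝ, (∀ i, 0 ≤ w i) →
      ∃ p : (ℝ × ℝ) × (ℝ × ℝ), ∑ i, (if Hit A p i then 0 else w i) ≤ ε * ∑ i, w i) (T : ℕ) :
    ∃ P : ℕ → (ℝ × ℝ) × (ℝ × ℝ),
      ∑ i, (2 : ℝ) ^ ((Finset.range T).filter (fun t => ¬ Hit A (P t) i)).card ≤
        Fintype.card ι * (1 + ε) ^ T := by
  classical
  induction T with
  | zero => exact ⟨fun _ => 0, by simp⟩
  | succ T ih =>
    obtain ⟨P, hP⟩ := ih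
    obtain ⟨p, hp⟩ := hex (fun i => (2 : ℝ) ^ ((Finset.range T).filter
      (fun t => ¬ Hit A (P t) i)).card) (fun i => by positivity)
    refine ⟨fun t => if t = T then p else P t, ?_⟩
    have h1 : ∀ i, (2 : ℝ) ^ ((Finset.range (T + 1)).filter
        (fun t => ¬ Hit A (if t = T then p else P t) i)).card =
        (2 : ℝ) ^ ((Finset.range T).filter (fun t => ¬ Hit A (P t) i)).card +
          (if Hit A p i then 0 else
            (2 : ℝ) ^ ((Finset.range T).filter (fun t => ¬ Hit A (P t) i)).card) := by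
      intro i
      have h2 : (Finset.range T).filter (fun t => ¬ Hit A (if t = T then p else P t) i) =
          (Finset.range T).filter (fun t => ¬ Hit A (P t) i) := by
        refine Finset.filter_congr fun t ht => ?_
        rw [if_neg (Finset.mem_range.1 ht).ne]
      rw [Finset.range_add_one, Finset.filter_insert, h2, if_pos rfl]
      by_cases hh : Hit A p i
      · rw [if_neg (not_not.2 hh), if_pos hh, add_zero]
      · rw [if_pos hh, if_neg hh, Finset.card_insert_of_notMem (by simp), pow_succ]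
        ring
    rw [Finset.sum_congr rfl (fun i _ => h1 i), Finset.sum_add_distrib]
    have h3 : (0 : ℝ) ≤ 1 + ε := by linarith
    calc _ ≤ (1 + ε) * ∑ i, (2 : ℝ) ^ ((Finset.range T).filter
          (fun t => ¬ Hit A (P t) i)).card := by linarith
      _ ≤ (1 + ε) * (Fintype.card ι * (1 + ε) ^ T) := mul_le_mul_of_nonneg_left hP h3
      _ = _ := by ring

end sampling

end Pairs

open Pairs in
/-- (KN8) compression + multiplicative weights -/
theorem pairs_of_local (r : ℕ) (hr : 0 < r) :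
    ∃ k₀ : ℕ, ∀ (ι : Type) [Finite ι] (A : ι → Set (ℝ × ℝ)),
      (∀ i, Convex ℝ (A i)) → (∀ i, IsCompact (A i)) →
      (∀ G : Finset ι, G.card ≤ k₀ → ∃ x y : ℝ × ℝ, ∀ i ∈ G, x ∈ A i ∨ y ∈ A i) →
      ∀ T₀ : ℕ, ∃ T : ℕ, T₀ ≤ T ∧ ∃ P Q : Fin T → ℝ × ℝ,
        ∀ i, r * Nat.card {t : Fin T // P t ∉ A i ∧ Q t ∉ A i} ≤ T := by
  classical
  have hr1 : (1 : ℝ) ≤ r := by exact_mod_cast hr
  set ε : ℝ := 1 / (3 * r) with hε
  have hε0 : 0 < ε := by positivity
  have hε1 : ε < 1 := by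
    rw [hε, div_lt_one (by positivity)]; linarith
  -- the choice of `m`
  obtain ⟨m, hm6, hm⟩ : ∃ m : ℕ, 6 ≤ m ∧ (m : ℝ) ^ 6 * (1 - ε) ^ (m - 6) < 1 := by
    have h1 := tendsto_pow_const_mul_const_pow_of_abs_lt_one 6 (r := 1 - ε)
      (by rw [abs_of_pos (by linarith)]; linarith)
    have h2 : (0 : ℝ) < (1 - ε) ^ 6 := pow_pos (by linarith) 6
    obtain ⟨m, hm, hm6⟩ := ((h1.eventually (gt_mem_nhds h2)).and
      (Filter.eventually_ge_atTop 6)).exists
    refine ⟨m, hm6, ?_⟩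
    have h3 : (1 - ε) ^ m = (1 - ε) ^ (m - 6) * (1 - ε) ^ 6 := by
      rw [← pow_add, Nat.sub_add_cancel hm6]
    rw [h3, ← mul_assoc] at hm
    by_contra h4
    push Not at h4
    nlinarith
  refine ⟨m, ?_⟩
  intro ι _ A hconv hcomp hloc T₀
  have := Fintype.ofFinite ι
  set n := max T₀ (Fintype.card ι) with hn
  set T := 3 * r * n with hT
  obtain ⟨P, hP⟩ := exists_seq A ε hε0.le
    (exists_pair A hconv hcomp hm6 ε hε0.le hε1.le hm hloc) T
  have hTn : T₀ ≤ T := by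
    have h1 : T₀ ≤ n := le_max_left _ _
    calc T₀ ≤ n := h1
      _ = 1 * n := (one_mul _).symm
      _ ≤ 3 * r * n := Nat.mul_le_mul_right _ (by omega)
  refine ⟨T, hTn, fun t => (P t).1, fun t => (P t).2, fun i => ?_⟩
  -- the number of misses
  set c := ((Finset.range T).filter (fun t => ¬ Hit A (P t) i)).card with hc
  have h1 : Nat.card {t : Fin T // (P t).1 ∉ A i ∧ (P t).2 ∉ A i} = c := by
    rw [Nat.card_eq_fintype_card, Fintype.card_subtype, hc]
    refine Finset.card_bij (fun t _ => (t : ℕ)) ?_ ?_ ?_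
    · intro t ht
      rw [Finset.mem_filter] at ht ⊢
      exact ⟨Finset.mem_range.2 t.2, fun h => h.elim ht.2.1 ht.2.2⟩
    · intro t _ t' _ h
      exact Fin.ext h
    · intro t ht
      rw [Finset.mem_filter, Finset.mem_range] at ht
      refine ⟨⟨t, ht.1⟩, Finset.mem_filter.2 ⟨Finset.mem_univ _, ?_⟩, rfl⟩
      exact ⟨fun h => ht.2 (Or.inl h), fun h => ht.2 (Or.inr h)⟩
  rw [h1]
  have h2 : (2 : ℝ) ^ c ≤ 2 ^ (3 * n) := by
    have h3 : (2 : ℝ) ^ c ≤ Fintype.card ι * (1 + ε) ^ T :=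
      (Finset.single_le_sum (f := fun i => (2 : ℝ) ^ ((Finset.range T).filter
        (fun t => ¬ Hit A (P t) i)).card) (fun i _ => by positivity) (Finset.mem_univ i)).trans hP
    have h4 : (Fintype.card ι : ℝ) ≤ 2 ^ n := by
      have h5 : Fintype.card ι ≤ n := le_max_right _ _
      have h6 : Fintype.card ι ≤ 2 ^ n := h5.trans Nat.lt_two_pow_self.le
      exact_mod_cast h6
    have h7 : (1 + ε) ^ T ≤ 4 ^ n := by
      rw [hT, pow_mul]
      refine pow_le_pow_left₀ (by positivity) ?_ n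
      have h8 : 1 + ε ≤ Real.exp ε := by linarith [Real.add_one_le_exp ε]
      calc (1 + ε) ^ (3 * r) ≤ (Real.exp ε) ^ (3 * r) := pow_le_pow_left₀ (by positivity) h8 _
        _ = Real.exp ((3 * r : ℕ) * ε) := by rw [← Real.exp_nat_mul]
        _ = Real.exp 1 := by
            congr 1
            rw [hε]; push_cast; field_simp
        _ ≤ 4 := by linarith [Real.exp_one_lt_d9]
    calc (2 : ℝ) ^ c ≤ Fintype.card ι * (1 + ε) ^ T := h3
      _ ≤ 2 ^ n * 4 ^ n := mul_le_mul h4 h7 (by positivity) (by positivity)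
      _ = 2 ^ (3 * n) := by
          rw [show (4 : ℝ) = 2 ^ 2 by norm_num, ← pow_mul, ← pow_add]; congr 1; ring
  have h3 : c ≤ 3 * n := (pow_le_pow_iff_right₀ (by norm_num : (1 : ℝ) < 2)).1 h2
  calc r * c ≤ r * (3 * n) := Nat.mul_le_mul_left r h3
    _ = T := by rw [hT]; ring

end Pool.KN
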